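import Mathlib

/-!
# Signed `B_h` sets of size three in cyclic groups (Day's conjecture)
-/

namespace Pool.Agent.Results.MP_66a881_co.DayBound

/-- `A ⊆ ℤ_n` is a `B_h` set over `ℤ`: the map `l ↦ ∑ l_a a` is injective on the integer vectors
`l` indexed by `A` (written as functions vanishing outside `A`) with `∑ |l_a| = h`. -/
def IsBh {n : ℕ} (h : ℕ) (A : Finset (ZMod n)) : Prop :=
  ∀ l l' : ZMod n → ℤ, (∀ a, a ∉ A → l a = 0) → (∀ a, a ∉ A → l' a = 0) →
    ∑ a ∈ A, |l a| = (h : ℤ) → ∑ a ∈ A, |l' a| = (h : ℤ) →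
    ∑ a ∈ A, (l a : ZMod n) * a = ∑ a ∈ A, (l' a : ZMod n) * a → l = l'

/-- `σ_±(ℤ_n, h)`: the largest size of a `B_h` set over `ℤ` in `ℤ_n`. -/
noncomputable def sigma (n h : ℕ) : ℕ :=
  sSup {m : ℕ | ∃ A : Finset (ZMod n), IsBh h A ∧ A.card = m}

/-- Day's third element. -/
def dayC (h : ℕ) : ℕ := if Odd h then h ^ 2 + h + 4 else h ^ 2 + h + 1

/-- Day's first element. -/
def dayA (h : ℕ) : ℕ := if Odd h then 2 else 1

/-- Day's set `{a₁, h, a₃}` in `ℤ_n`. -/
def daySet (h n : ℕ) : Finset (ZMod n) := {(dayA h : ZMod n), (h : ZMod n), (dayC h : ZMod n)}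

theorem core_odd (h x y z : ℤ) (hh : 1 ≤ h) (ho : h % 2 = 1)
    (e : 2 * x + h * y + (h ^ 2 + h + 4) * z = 0) (hs : |x| + |y| + |z| ≤ 2 * h)
    (hp : (|x| + |y| + |z|) % 2 = 0) : x = 0 ∧ y = 0 ∧ z = 0 := by
  obtain ⟨j, hj⟩ : ∃ j, h = 2 * j + 1 := ⟨h / 2, by omega⟩
  -- y is even
  have hy : y % 2 = 0 := by
    have h1 : y = 2 * (-x - j * y - (2 * j ^ 2 + 3 * j + 3) * z) := by
      subst hj
      nlinarith
    omega
  obtain ⟨w, hw⟩ : ∃ w, y = 2 * w := ⟨y / 2, by omega⟩
  set k := w + (j + 1) * z with hk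
  have hyk : y = 2 * k - (h + 1) * z := by rw [hw, hk, hj]; ring
  have hxk : x = -(2 * z + k * h) := by
    rw [hyk] at e
    nlinarith
  have hpar : (k + z) % 2 = 0 := by
    have h1 : (|x| + |y| + |z|) % 2 = (x + y + z) % 2 := by
      rcases abs_choice x with a | a <;> rcases abs_choice y with b | b <;>
        rcases abs_choice z with c | c <;> rw [a, b, c] <;> omega
    rw [h1, hyk, hxk] at hp
    have h2 : -(2 * z + k * h) + (2 * k - (h + 1) * z) + z
        = (k + z) + 2 * (-z - k * j - j * z - z) := by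
      rw [hj]; ring
    rw [h2] at hp
    omega
  -- sign reduction
  have key : ∀ k z : ℤ, 0 < z → (k + z) % 2 = 0 →
      2 * h < |-(2 * z + k * h)| + |2 * k - (h + 1) * z| + |z| := by
    intro k z hz hpar
    have a1 := neg_abs_le (-(2 * z + k * h))
    have a2 := le_abs_self (-(2 * z + k * h))
    have b1 := neg_abs_le (2 * k - (h + 1) * z)
    have b2 := le_abs_self (2 * k - (h + 1) * z)
    have c2 := le_abs_self z
    have a0 := abs_nonneg (-(2 * z + k * h))
    have b0 := abs_nonneg (2 * k - (h + 1) * z)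
    rcases le_or_gt 2 k with h2 | h2
    · nlinarith
    · rcases lt_or_ge 0 k with h3 | h3
      · have hk1 : k = 1 := by omega
        subst hk1
        nlinarith
      · rcases le_or_gt 2 z with h4 | h4
        · nlinarith
        · have hz1 : z = 1 := by omega
          subst hz1
          have hk2 : k ≤ -1 := by omega
          nlinarith
  rcases lt_trichotomy z 0 with hz | hz | hz
  · have := key (-k) (-z) (by omega) (by omega)
    have e1 : -(2 * -z + -k * h) = -x := by rw [hxk]; ring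
    have e2 : 2 * -k - (h + 1) * -z = -y := by rw [hyk]; ring
    rw [e1, e2, abs_neg, abs_neg, abs_neg] at this
    omega
  · subst hz
    have hk0 : k = 0 := by
      by_contra hne
      have hk2 : 2 ≤ |k| := by
        rcases abs_cases k with ⟨a, b⟩ | ⟨a, b⟩ <;> omega
      have e1 : |x| = |k| * h := by
        rw [hxk, abs_neg]
        rw [mul_zero, zero_add, abs_mul, abs_of_nonneg (by omega : (0 : ℤ) ≤ h)]
      have e2 : |y| = 2 * |k| := by
        rw [hyk, mul_zero, sub_zero, abs_mul]; norm_num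
      rw [e1, e2, abs_zero] at hs
      nlinarith
    rw [hk0] at hyk hxk
    constructor
    · rw [hxk]; ring
    · constructor
      · rw [hyk]; ring
      · rfl
  · have := key k z hz hpar
    rw [← hxk, ← hyk] at this
    omega

theorem core_even (h x y z : ℤ) (hh : 1 ≤ h) (ho : h % 2 = 0)
    (e : x + h * y + (h ^ 2 + h + 1) * z = 0) (hs : |x| + |y| + |z| ≤ 2 * h)
    (hp : (|x| + |y| + |z|) % 2 = 0) : x = 0 ∧ y = 0 ∧ z = 0 := by
  obtain ⟨j, hj⟩ : ∃ j, h = 2 * j := ⟨h / 2, by omega⟩
  set k := y + (h + 1) * z with hk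
  have hyk : y = k - (h + 1) * z := by rw [hk]; ring
  have hxk : x = -(z + k * h) := by
    rw [hyk] at e
    nlinarith
  have hpar : (k + z) % 2 = 0 := by
    have h1 : (|x| + |y| + |z|) % 2 = (x + y + z) % 2 := by
      rcases abs_choice x with a | a <;> rcases abs_choice y with b | b <;>
        rcases abs_choice z with c | c <;> rw [a, b, c] <;> omega
    rw [h1, hyk, hxk] at hp
    have h2 : -(z + k * h) + (k - (h + 1) * z) + z
        = (k + z) + 2 * (-z - k * j - j * z) := by
      rw [hj]; ring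
    rw [h2] at hp
    omega
  have key : ∀ k z : ℤ, 0 < z → (k + z) % 2 = 0 →
      2 * h < |-(z + k * h)| + |k - (h + 1) * z| + |z| := by
    intro k z hz hpar
    have a1 := neg_abs_le (-(z + k * h))
    have a2 := le_abs_self (-(z + k * h))
    have b1 := neg_abs_le (k - (h + 1) * z)
    have b2 := le_abs_self (k - (h + 1) * z)
    have c2 := le_abs_self z
    have a0 := abs_nonneg (-(z + k * h))
    have b0 := abs_nonneg (k - (h + 1) * z)
    rcases le_or_gt 2 k with h2 | h2
    · nlinarith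
    · rcases lt_or_ge 0 k with h3 | h3
      · have hk1 : k = 1 := by omega
        subst hk1
        nlinarith
      · rcases le_or_gt 2 z with h4 | h4
        · nlinarith
        · have hz1 : z = 1 := by omega
          subst hz1
          have hk2 : k ≤ -1 := by omega
          nlinarith
  rcases lt_trichotomy z 0 with hz | hz | hz
  · have := key (-k) (-z) (by omega) (by omega)
    have e1 : -(-z + -k * h) = -x := by rw [hxk]; ring
    have e2 : -k - (h + 1) * -z = -y := by rw [hyk]; ring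
    rw [e1, e2, abs_neg, abs_neg, abs_neg] at this
    omega
  · subst hz
    have hk0 : k = 0 := by
      by_contra hne
      have hk2 : 2 ≤ |k| := by
        rcases abs_cases k with ⟨a, b⟩ | ⟨a, b⟩ <;> omega
      have e1 : |x| = |k| * h := by
        rw [hxk, abs_neg]
        rw [zero_add, abs_mul, abs_of_nonneg (by omega : (0 : ℤ) ≤ h)]
      have e2 : |y| = |k| := by
        rw [hyk, mul_zero, sub_zero]
      rw [e1, e2, abs_zero] at hs
      nlinarith
    rw [hk0] at hyk hxk
    constructor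
    · rw [hxk]; ring
    · constructor
      · rw [hyk]; ring
      · rfl
  · have := key k z hz hpar
    rw [← hxk, ← hyk] at this
    omega

theorem core (h : ℕ) (hh : 0 < h) (x y z : ℤ)
    (e : (dayA h : ℤ) * x + h * y + (dayC h : ℤ) * z = 0) (hs : |x| + |y| + |z| ≤ 2 * h)
    (hp : (|x| + |y| + |z|) % 2 = 0) : x = 0 ∧ y = 0 ∧ z = 0 := by
  unfold dayA dayC at e
  by_cases ho : Odd h
  · rw [if_pos ho, if_pos ho] at e
    push_cast at e
    apply core_odd h x y z (by exact_mod_cast hh) _ e hs hp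
    have := Nat.odd_iff.mp ho
    omega
  · rw [if_neg ho, if_neg ho] at e
    push_cast at e
    rw [one_mul] at e
    apply core_even h x y z (by exact_mod_cast hh) _ e hs hp
    have := Nat.even_iff.mp (Nat.not_odd_iff_even.mp ho)
    omega

theorem dayA_bounds (h : ℕ) : 1 ≤ dayA h ∧ dayA h ≤ 2 := by
  unfold dayA; split_ifs <;> omega

theorem dayA_lt (h : ℕ) (hh : 0 < h) : dayA h < dayC h := by
  unfold dayA dayC; split_ifs <;> nlinarith

theorem h_lt (h : ℕ) (hh : 0 < h) : h < dayC h := by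
  unfold dayC; split_ifs <;> nlinarith

theorem dayA_ne (h : ℕ) (hh : 0 < h) : dayA h ≠ h := by
  unfold dayA
  split_ifs with ho
  · intro e; rw [← e] at ho; exact absurd ho (by decide)
  · intro e; rw [← e] at ho; exact ho (by decide)

theorem cast_ne {n a b : ℕ} (ha : a < n) (hb : b < n) (hab : a ≠ b) : (a : ZMod n) ≠ (b : ZMod n) := by
  intro e
  rw [ZMod.natCast_eq_natCast_iff', Nat.mod_eq_of_lt ha, Nat.mod_eq_of_lt hb] at e
  exact hab e

theorem day_set (h n : ℕ) (hh : 0 < h) (hn : 2 * h * dayC h < n) :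
    (daySet h n).card = 3 ∧ IsBh h (daySet h n) := by
  have hC := h_lt h hh
  have hA := dayA_lt h hh
  have hCn : dayC h < n := by nlinarith
  have n1 : (dayA h : ZMod n) ≠ (h : ZMod n) := cast_ne (by omega) (by omega) (dayA_ne h hh)
  have n2 : (dayA h : ZMod n) ≠ (dayC h : ZMod n) := cast_ne (by omega) (by omega) (by omega)
  have n3 : (h : ZMod n) ≠ (dayC h : ZMod n) := cast_ne (by omega) (by omega) (by omega)
  have hsum : ∀ {M : Type} [AddCommMonoid M] (f : ZMod n → M),
      ∑ a ∈ daySet h n, f a = f (dayA h) + (f h + f (dayC h)) := by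
    intro M _ f
    unfold daySet
    rw [Finset.sum_insert, Finset.sum_insert, Finset.sum_singleton]
    · rw [Finset.mem_singleton]; exact n3
    · rw [Finset.mem_insert, Finset.mem_singleton]; push Not; exact ⟨n1, n2⟩
  constructor
  · unfold daySet
    rw [Finset.card_eq_three]
    exact ⟨_, _, _, n1, n2, n3, rfl⟩
  · intro l l' hl hl' s s' e
    rw [hsum] at s s' e
    rw [hsum] at e
    set x := l (dayA h) - l' (dayA h) with hx
    set y := l h - l' h with hy
    set z := l (dayC h) - l' (dayC h) with hz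
    have hxa : |x| ≤ |l (dayA h)| + |l' (dayA h)| := abs_sub _ _
    have hya : |y| ≤ |l h| + |l' h| := abs_sub _ _
    have hza : |z| ≤ |l (dayC h)| + |l' (dayC h)| := abs_sub _ _
    have hle : |x| + |y| + |z| ≤ 2 * h := by linarith
    have hpar : (|x| + |y| + |z|) % 2 = 0 := by
      have p1 : ∀ t : ℤ, |t| % 2 = t % 2 := by
        intro t; rcases abs_choice t with a | a <;> rw [a] <;> omega
      have q1 := p1 x; have q2 := p1 y; have q3 := p1 z
      have r1 := p1 (l (dayA h)); have r2 := p1 (l h); have r3 := p1 (l (dayC h))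
      have t1 := p1 (l' (dayA h)); have t2 := p1 (l' h); have t3 := p1 (l' (dayC h))
      omega
    have hcast : (((dayA h : ℤ) * x + h * y + (dayC h : ℤ) * z : ℤ) : ZMod n) = 0 := by
      rw [hx, hy, hz]
      push_cast
      linear_combination e
    rw [ZMod.intCast_zmod_eq_zero_iff_dvd] at hcast
    have hzero : (dayA h : ℤ) * x + h * y + (dayC h : ℤ) * z = 0 := by
      apply Int.eq_zero_of_abs_lt_dvd hcast
      have b1 : |(dayA h : ℤ) * x| ≤ dayC h * |x| := by
        rw [abs_mul, abs_of_nonneg (by positivity : (0 : ℤ) ≤ dayA h)]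
        apply mul_le_mul_of_nonneg_right _ (abs_nonneg _)
        exact_mod_cast hA.le
      have b2 : |(h : ℤ) * y| ≤ dayC h * |y| := by
        rw [abs_mul, abs_of_nonneg (by positivity : (0 : ℤ) ≤ (h : ℤ))]
        apply mul_le_mul_of_nonneg_right _ (abs_nonneg _)
        exact_mod_cast hC.le
      have b3 : |(dayC h : ℤ) * z| = dayC h * |z| := by
        rw [abs_mul, abs_of_nonneg (by positivity : (0 : ℤ) ≤ dayC h)]
      have b4 := abs_add_three ((dayA h : ℤ) * x) (h * y) (dayC h * z)
      have b5 : (dayC h : ℤ) * (|x| + |y| + |z|) ≤ dayC h * (2 * h) :=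
        mul_le_mul_of_nonneg_left hle (by positivity)
      have b6 : (2 * h * dayC h : ℤ) < n := by exact_mod_cast hn
      nlinarith
    obtain ⟨e1, e2, e3⟩ := core h hh x y z hzero hle hpar
    funext a
    by_cases ha : a ∈ daySet h n
    · unfold daySet at ha
      rw [Finset.mem_insert, Finset.mem_insert, Finset.mem_singleton] at ha
      rcases ha with rfl | rfl | rfl <;> omega
    · rw [hl a ha, hl' a ha]

theorem three_le_sigma (h n : ℕ) (hn0 : 0 < n) (hh : 0 < h) (hn : 2 * h * dayC h < n) :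
    3 ≤ sigma n h := by
  have : NeZero n := ⟨hn0.ne'⟩
  obtain ⟨h1, h2⟩ := day_set h n hh hn
  apply le_csSup
  · refine ⟨n, ?_⟩
    rintro m ⟨A, _, rfl⟩
    have := Finset.card_le_univ A
    rwa [ZMod.card] at this
  · exact ⟨_, h2, h1⟩

/-- For every positive integer `h`: Day's set `{a₁, h, a₃}` is a three-element `B_h` set over `ℤ`
in `ℤ_n` for all `n > 2 h a₃`, and the least positive `g` with `σ_±(ℤ_n, h) ≥ 3` for all `n ≥ g`
exists and is at most `2h³ + 2h² + 8h + 1`. -/
theorem result (h : ℕ) (hh : 0 < h) :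
    (∀ n : ℕ, 2 * h * dayC h < n → (daySet h n).card = 3 ∧ IsBh h (daySet h n)) ∧
    ∃ g : ℕ, IsLeast {g : ℕ | 0 < g ∧ ∀ n : ℕ, g ≤ n → 3 ≤ sigma n h} g ∧
      g ≤ 2 * h ^ 3 + 2 * h ^ 2 + 8 * h + 1 := by
  refine ⟨fun n hn => day_set h n hh hn, ?_⟩
  have hmem : 2 * h ^ 3 + 2 * h ^ 2 + 8 * h + 1 ∈
      {g : ℕ | 0 < g ∧ ∀ n : ℕ, g ≤ n → 3 ≤ sigma n h} := by
    refine ⟨by positivity, ?_⟩
    intro n hn
    apply three_le_sigma h n (by omega) hh
    have : dayC h ≤ h ^ 2 + h + 4 := by unfold dayC; split_ifs <;> omega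
    calc 2 * h * dayC h ≤ 2 * h * (h ^ 2 + h + 4) := Nat.mul_le_mul_left _ this
      _ = 2 * h ^ 3 + 2 * h ^ 2 + 8 * h := by ring
      _ < n := by omega
  classical
  refine ⟨sInf {g : ℕ | 0 < g ∧ ∀ n : ℕ, g ≤ n → 3 ≤ sigma n h},
    ⟨Nat.sInf_mem ⟨_, hmem⟩, fun g hg => Nat.sInf_le hg⟩, Nat.sInf_le hmem⟩

end Pool.Agent.Results.MP_66a881_co.DayBound
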